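import Pool.Agent.Lib_helper32.TF.INE

/-!
# `Tr ((A + r)⁻¹ D)² ≤ ∑ dᵢ² / (|dᵢ| + r)²` for a pair `(A, D)`
-/

set_option autoImplicit false

open scoped ComplexOrder MatrixOrder ENNReal BigOperators
open MeasureTheory Set Matrix

namespace Pool.Agent.RC.TZ

open SER INE

variable {ι : Type} [Fintype ι] [DecidableEq ι]

open Classical in
/-- monotonicity of the number of positive eigenvalues -/
theorem card_mono {M N : Matrix ι ι ℂ} (hM : M.IsHermitian) (hN : N.IsHermitian)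
    (hMN : (N - M).PosSemidef) :
    (Finset.univ.filter fun i => 0 < hM.eigenvalues i).card ≤
      (Finset.univ.filter fun i => 0 < hN.eigenvalues i).card := by
  obtain ⟨U, h1, h2, h3⟩ := exists_diag_eig hM
  obtain ⟨V, g1, g2, g3⟩ := exists_diag_eig hN
  set c := hM.eigenvalues
  set d := hN.eigenvalues
  let P : ι → Prop := fun i => 0 < c i
  let Q : ι → Prop := fun i => ¬ 0 < d i
  let L : (({i // P i} → ℂ) × ({i // Q i} → ℂ)) →ₗ[ℂ] (ι → ℂ) :=
    (U.mulVecLin ∘ₗ ext0 P) ∘ₗ LinearMap.fst ℂ _ _ -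
      (V.mulVecLin ∘ₗ ext0 Q) ∘ₗ LinearMap.snd ℂ _ _
  have hL : Function.Injective L := by
    rw [← LinearMap.ker_eq_bot, LinearMap.ker_eq_bot']
    rintro ⟨a, b⟩ hab
    have e1 : U *ᵥ ext0 P a = V *ᵥ ext0 Q b := by
      have : U *ᵥ ext0 P a - V *ᵥ ext0 Q b = 0 := hab
      exact sub_eq_zero.mp this
    have q1 := quad h3 (ext0 P a)
    have q2 := quad g3 (ext0 Q b)
    have e3 : (star (U *ᵥ ext0 P a) ⬝ᵥ (M *ᵥ (U *ᵥ ext0 P a))).re ≤
        (star (V *ᵥ ext0 Q b) ⬝ᵥ (N *ᵥ (V *ᵥ ext0 Q b))).re := by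
      rw [← e1]
      have h5 := hMN.re_dotProduct_nonneg (U *ᵥ ext0 P a)
      rw [sub_mulVec, dotProduct_sub] at h5
      have h6 : (0 : ℝ) ≤ (star (U *ᵥ ext0 P a) ⬝ᵥ (N *ᵥ (U *ᵥ ext0 P a)) -
        star (U *ᵥ ext0 P a) ⬝ᵥ (M *ᵥ (U *ᵥ ext0 P a))).re := h5
      rw [Complex.sub_re] at h6
      linarith
    rw [q1, q2] at e3
    have hle : ∑ i, d i * ‖ext0 Q b i‖ ^ 2 ≤ 0 := by
      apply Finset.sum_nonpos
      intro i _
      by_cases hi : Q i
      · exact mul_nonpos_of_nonpos_of_nonneg (not_lt.mp hi) (sq_nonneg _)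
      · rw [ext0_apply, dif_neg hi]; simp
    have hz : ∑ i, c i * ‖ext0 P a i‖ ^ 2 ≤ 0 := e3.trans hle
    have hterm : ∀ i ∈ Finset.univ, 0 ≤ c i * ‖ext0 P a i‖ ^ 2 := by
      intro i _
      by_cases hi : P i
      · exact mul_nonneg (le_of_lt hi) (sq_nonneg _)
      · rw [ext0_apply, dif_neg hi]; simp
    have hz0 := (Finset.sum_eq_zero_iff_of_nonneg hterm).mp
      (le_antisymm hz (Finset.sum_nonneg hterm))
    have ha0 : ext0 P a = 0 := by
      ext i
      by_cases hi : P i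
      · have := hz0 i (Finset.mem_univ i)
        rcases mul_eq_zero.mp this with h | h
        · exact absurd h (ne_of_gt hi)
        · simpa using h
      · rw [ext0_apply, dif_neg hi]; rfl
    have hb0 : ext0 Q b = 0 := by
      have : V *ᵥ ext0 Q b = 0 := by rw [← e1, ha0, mulVec_zero]
      calc ext0 Q b = (Vᴴ * V) *ᵥ ext0 Q b := by rw [g2, one_mulVec]
        _ = 0 := by rw [← mulVec_mulVec, this, mulVec_zero]
    rw [ext0_inj P a ha0, ext0_inj Q b hb0]
    rfl
  have hfr := LinearMap.finrank_le_finrank_of_injective hL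
  rw [Module.finrank_prod, Module.finrank_fintype_fun_eq_card, Module.finrank_fintype_fun_eq_card,
    Module.finrank_fintype_fun_eq_card, Fintype.card_subtype, Fintype.card_subtype] at hfr
  have hcomp := Finset.card_filter_add_card_filter_not (s := (Finset.univ : Finset ι))
    (fun i => 0 < d i)
  rw [Finset.card_univ] at hcomp
  change (Finset.univ.filter fun i => 0 < c i).card +
    (Finset.univ.filter fun i => ¬ 0 < d i).card ≤ _ at hfr
  omega

theorem trF_i0_mono {M N : Matrix ι ι ℂ} (hM : M.IsHermitian) (hN : N.IsHermitian)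
    (hMN : (N - M).PosSemidef) : trF i0 M ≤ trF i0 N := by
  rw [trF_i0 hM, trF_i0 hN]
  have := card_mono hM hN hMN
  convert Nat.cast_le (α := ℝ) |>.2 this

theorem psd_smul {M : Matrix ι ι ℂ} (hM : M.PosSemidef) {t : ℝ} (ht : 0 ≤ t) :
    ((t : ℂ) • M).PosSemidef := by
  apply hM.smul
  exact_mod_cast ht

theorem psd_scalar {t : ℝ} (ht : 0 ≤ t) : ((t : ℂ) • (1 : Matrix ι ι ℂ)).PosSemidef :=
  psd_smul Matrix.PosSemidef.one ht

/-- trace functions of `x D + y` -/
theorem trF_affine (f : ℝ → ℝ) {D : Matrix ι ι ℂ} (hD : D.IsHermitian) (x y : ℝ) :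
    trF f ((x : ℂ) • D + (y : ℂ) • (1 : Matrix ι ι ℂ)) = ∑ i, f (x * hD.eigenvalues i + y) := by
  obtain ⟨U, h1, h2, h3⟩ := exists_diag_eig hD
  have e : (x : ℂ) • D + (y : ℂ) • (1 : Matrix ι ι ℂ) =
      U * Matrix.diagonal (fun i => ((x * hD.eigenvalues i + y : ℝ) : ℂ)) * Uᴴ := by
    have e1 : Matrix.diagonal (fun i => ((x * hD.eigenvalues i + y : ℝ) : ℂ)) =
        (x : ℂ) • Matrix.diagonal (fun i => (hD.eigenvalues i : ℂ)) +
          (y : ℂ) • (1 : Matrix ι ι ℂ) := by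
      ext i j
      by_cases hij : i = j
      · subst hij; simp
      · simp [hij]
    rw [e1, ← h3, mul_add, add_mul, Matrix.mul_smul, Matrix.smul_mul, Matrix.mul_smul,
      Matrix.smul_mul, mul_one, h1]
    congr 2
    calc D = (U * Uᴴ) * D * (U * Uᴴ) := by rw [h1]; simp
      _ = _ := by noncomm_ring
  rw [e]
  exact TRF.trF_conj f h2 _

theorem trF_neg (f : ℝ → ℝ) {D : Matrix ι ι ℂ} (hD : D.IsHermitian) :
    trF f (-D) = ∑ i, f (-hD.eigenvalues i) := by
  have h := trF_affine f hD (-1) 0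
  simpa using h

/-- the counting inequality -/
theorem count_le {A D S : Matrix ι ι ℂ} (hA : A.PosDef) (hD : D.IsHermitian)
    (hAD : (A - D).PosSemidef) {r : ℝ} (hr : 0 < r) (hS : IsUnit S)
    (hS1 : Sᴴ * (A + (r : ℂ) • (1 : Matrix ι ι ℂ)) * S = 1) {t : ℝ} (ht : 0 < t) :
    trF i0 (Sᴴ * D * S - (t : ℂ) • (1 : Matrix ι ι ℂ)) ≤
      ∑ i, i0 (hD.eigenvalues i / (|hD.eigenvalues i| + r) - t) := by
  have hE := shift_posDef hA hr.le
  set E := A + (r : ℂ) • (1 : Matrix ι ι ℂ) with hEdef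
  have hM : (D - (t : ℂ) • E).IsHermitian := hD.sub (isHermitian_real_smul t hE.isHermitian)
  have e : Sᴴ * (D - (t : ℂ) • E) * S = Sᴴ * D * S - (t : ℂ) • (1 : Matrix ι ι ℂ) := by
    rw [mul_sub, sub_mul, Matrix.mul_smul, Matrix.smul_mul, hS1]
  rw [← e, trF_i0_congr hM hS]
  rcases lt_or_ge t 1 with h1 | h1
  · have hN : (((1 - t : ℝ) : ℂ) • D + ((-(t * r) : ℝ) : ℂ) • (1 : Matrix ι ι ℂ)).IsHermitian :=
      (isHermitian_real_smul _ hD).add (isHermitian_real_smul _ Matrix.isHermitian_one)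
    have hmn : ((((1 - t : ℝ) : ℂ) • D + ((-(t * r) : ℝ) : ℂ) • (1 : Matrix ι ι ℂ)) -
        (D - (t : ℂ) • E)).PosSemidef := by
      have e2 : (((1 - t : ℝ) : ℂ) • D + ((-(t * r) : ℝ) : ℂ) • (1 : Matrix ι ι ℂ)) -
          (D - (t : ℂ) • E) = (t : ℂ) • (A - D) := by
        rw [hEdef]
        push_cast
        module
      rw [e2]
      exact psd_smul hAD ht.le
    refine (trF_i0_mono hM hN hmn).trans ?_
    rw [trF_affine i0 hD]
    apply Finset.sum_le_sum
    intro i _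
    set d := hD.eigenvalues i
    unfold i0
    split_ifs with h2 h3 h3
    · exact le_rfl
    · exfalso
      apply h3
      have hd : 0 < d := by
        by_contra hd
        have h4 : (1 - t) * d ≤ 0 := mul_nonpos_of_nonneg_of_nonpos (by linarith) (not_lt.1 hd)
        have h5 : 0 < t * r := mul_pos ht hr
        linarith
      rw [abs_of_pos hd, sub_pos, lt_div_iff₀ (by linarith)]
      nlinarith
    · norm_num
    · exact le_rfl
  · have hN : (((0 : ℝ) : ℂ) • D + ((-r : ℝ) : ℂ) • (1 : Matrix ι ι ℂ)).IsHermitian :=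
      (isHermitian_real_smul _ hD).add (isHermitian_real_smul _ Matrix.isHermitian_one)
    have hmn : ((((0 : ℝ) : ℂ) • D + ((-r : ℝ) : ℂ) • (1 : Matrix ι ι ℂ)) -
        (D - (t : ℂ) • E)).PosSemidef := by
      have e2 : (((0 : ℝ) : ℂ) • D + ((-r : ℝ) : ℂ) • (1 : Matrix ι ι ℂ)) -
          (D - (t : ℂ) • E) = (A - D) + ((t - 1 : ℝ) : ℂ) • E := by
        rw [hEdef]
        push_cast
        module
      rw [e2]
      exact hAD.add (psd_smul hE.posSemidef (by linarith))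
    refine (trF_i0_mono hM hN hmn).trans ?_
    rw [trF_affine i0 hD]
    apply Finset.sum_le_sum
    intro i _
    have : i0 (0 * hD.eigenvalues i + -r) = 0 := by
      unfold i0
      rw [if_neg]
      linarith
    rw [this]
    exact i0_nonneg _

theorem half {A D S : Matrix ι ι ℂ} (hA : A.PosDef) (hD : D.IsHermitian)
    (hAD : (A - D).PosSemidef) {r : ℝ} (hr : 0 < r) (hS : IsUnit S)
    (hS1 : Sᴴ * (A + (r : ℂ) • (1 : Matrix ι ι ℂ)) * S = 1) :
    trF (pp 2) (Sᴴ * D * S) ≤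
      ∑ i, pp 2 (hD.eigenvalues i / (|hD.eigenvalues i| + r)) := by
  have hH : (Sᴴ * D * S).IsHermitian := Matrix.isHermitian_conjTranspose_mul_mul S hD
  have hR0 : 0 ≤ ∑ i, pp 2 (hD.eigenvalues i / (|hD.eigenvalues i| + r)) :=
    Finset.sum_nonneg fun _ _ => pp_nonneg _ _
  rw [← ENNReal.ofReal_le_ofReal_iff hR0, layer two_pos hH,
    ENNReal.ofReal_sum_of_nonneg fun _ _ => pp_nonneg _ _]
  have e1 : ∀ i, ENNReal.ofReal (pp 2 (hD.eigenvalues i / (|hD.eigenvalues i| + r))) =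
      ENNReal.ofReal 2 * ∫⁻ t in Ioi (0 : ℝ),
        ENNReal.ofReal (i0 (hD.eigenvalues i / (|hD.eigenvalues i| + r) - t)) *
          ENNReal.ofReal (t ^ ((2 : ℝ) - 1)) := fun i => layer1 two_pos _
  rw [Finset.sum_congr rfl fun i _ => e1 i, ← Finset.mul_sum,
    ← lintegral_finset_sum]
  · gcongr ENNReal.ofReal 2 * ?_
    apply setLIntegral_mono' measurableSet_Ioi
    intro t ht
    rw [← Finset.sum_mul, ← ENNReal.ofReal_sum_of_nonneg fun _ _ => i0_nonneg _]
    gcongr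
    exact count_le hA hD hAD hr hS hS1 ht
  · intro i _
    exact (ENNReal.measurable_ofReal.comp (measurable_i0' _)).mul
      (ENNReal.measurable_ofReal.comp (by fun_prop))

theorem trace_sq_eq {H : Matrix ι ι ℂ} (hH : H.IsHermitian) :
    ((H * H).trace).re = ∑ i, (hH.eigenvalues i) ^ 2 := by
  obtain ⟨U, h1, h2, h3⟩ := exists_diag_eig hH
  have e : H * H = U * (Matrix.diagonal (fun i => (hH.eigenvalues i : ℂ)) *
      Matrix.diagonal (fun i => (hH.eigenvalues i : ℂ))) * Uᴴ := by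
    rw [← h3]
    calc H * H = (U * Uᴴ) * H * (U * Uᴴ) * H * (U * Uᴴ) := by rw [h1]; simp
      _ = _ := by noncomm_ring
  rw [e, Matrix.trace_mul_comm, ← mul_assoc, h2, one_mul, Matrix.diagonal_mul_diagonal,
    Matrix.trace_diagonal, Complex.re_sum]
  apply Finset.sum_congr rfl
  intro i _
  rw [← Complex.ofReal_mul, Complex.ofReal_re, sq]

theorem sq_eq_pp (x : ℝ) : x ^ 2 = pp 2 x + pp 2 (-x) := by
  unfold pp
  have e : ∀ y : ℝ, y ^ (2 : ℝ) = y ^ 2 := fun y => by exact_mod_cast Real.rpow_natCast y 2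
  rw [e, e]
  rcases le_total 0 x with h | h
  · rw [max_eq_left h, max_eq_right (by linarith)]; ring
  · rw [max_eq_right h, max_eq_left (by linarith)]; ring

theorem tn_le {A D : Matrix ι ι ℂ} (h : IsPair A D) (hD : D.IsHermitian) {r : ℝ} (hr : 0 < r) :
    tn A D 2 r ≤ ∑ i, (hD.eigenvalues i) ^ 2 * ((|hD.eigenvalues i| + r) ^ 2)⁻¹ := by
  obtain ⟨S, hS, hS1, hS2⟩ := exists_congr (shift_posDef h.pos hr.le)
  have hH : (Sᴴ * D * S).IsHermitian := Matrix.isHermitian_conjTranspose_mul_mul S hD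
  have hDn : (-D).IsHermitian := hD.neg
  have e1 : tn A D 2 r = (((Sᴴ * D * S) * (Sᴴ * D * S)).trace).re := by
    unfold tn Res
    rw [← hS2, pow_two]
    congr 1
    calc (S * Sᴴ * D * (S * Sᴴ * D)).trace = (S * (Sᴴ * D * S * (Sᴴ * D))).trace := by
          congr 1; noncomm_ring
      _ = ((Sᴴ * D * S * (Sᴴ * D)) * S).trace := by rw [Matrix.trace_mul_comm]
      _ = _ := by congr 1; noncomm_ring
  have e2 : tn A D 2 r = trF (pp 2) (Sᴴ * D * S) + trF (pp 2) (Sᴴ * (-D) * S) := by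
    have e3 : Sᴴ * (-D) * S = -(Sᴴ * D * S) := by noncomm_ring
    rw [e1, trace_sq_eq hH, e3, trF_neg (pp 2) hH]
    have : trF (pp 2) (Sᴴ * D * S) = ∑ i, pp 2 (hH.eigenvalues i) := by
      unfold trF; rw [dif_pos hH]
    rw [this, ← Finset.sum_add_distrib]
    exact Finset.sum_congr rfl fun i _ => sq_eq_pp _
  have h1 := half h.pos hD h.sub hr hS hS1
  have h2 := half h.pos hDn (by rw [sub_neg_eq_add]; exact h.add) hr hS hS1
  have e4 : ∑ i, pp 2 (hDn.eigenvalues i / (|hDn.eigenvalues i| + r)) =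
      ∑ i, pp 2 (-(hD.eigenvalues i / (|hD.eigenvalues i| + r))) := by
    have k1 := trF_neg (fun x => pp 2 (x / (|x| + r))) hD
    unfold trF at k1
    rw [dif_pos hDn] at k1
    rw [k1]
    apply Finset.sum_congr rfl
    intro i _
    simp only [abs_neg, neg_div]
  rw [e2]
  calc trF (pp 2) (Sᴴ * D * S) + trF (pp 2) (Sᴴ * (-D) * S) ≤
      ∑ i, pp 2 (hD.eigenvalues i / (|hD.eigenvalues i| + r)) +
        ∑ i, pp 2 (-(hD.eigenvalues i / (|hD.eigenvalues i| + r))) := by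
        rw [← e4]
        exact add_le_add h1 h2
    _ = _ := by
        rw [← Finset.sum_add_distrib]
        apply Finset.sum_congr rfl
        intro i _
        rw [← sq_eq_pp, div_pow, div_eq_mul_inv]

end Pool.Agent.RC.TZ
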