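import Pool.Agent.Lib_helper98.RC.T2
import Pool.Agent.Lib_helper92.RC.S24b
import Pool.Agent.Lib_helper41.MOD.TZ1

/-!
# `Tr |D|^α ≤ T₂(A, D)` for `2 < α < 3`
-/

set_option autoImplicit false

open scoped ComplexOrder MatrixOrder ENNReal BigOperators Kronecker Topology
open MeasureTheory Set Matrix Filter

namespace Pool.Agent.RC.TZ

open SER INE KER

variable {ι : Type} [Fintype ι] [DecidableEq ι]

/-- `∫ r^(α-1) (1/r² - 1/(1+r)²) dr` -/
noncomputable def cc (α : ℝ) : ℝ :=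
  ∫ r in Ioi (0 : ℝ), r ^ (α - 1) * ((r ^ 2)⁻¹ - ((1 + r) ^ 2)⁻¹)

theorem gap_eq {a r : ℝ} (ha : 0 ≤ a) (hr : 0 < r) :
    (r ^ 2)⁻¹ - ((a + r) ^ 2)⁻¹ = a * (a + 2 * r) / (r ^ 2 * (a + r) ^ 2) := by
  have h1 : a + r ≠ 0 := by positivity
  field_simp
  ring

theorem gap_nonneg {a r : ℝ} (ha : 0 ≤ a) (hr : 0 < r) :
    0 ≤ (r ^ 2)⁻¹ - ((a + r) ^ 2)⁻¹ := by
  rw [gap_eq ha hr]; positivity

theorem gap_le {a r : ℝ} (ha : 0 ≤ a) (hr : 0 < r) :
    (r ^ 2)⁻¹ - ((a + r) ^ 2)⁻¹ ≤ 2 * a * ((r ^ 2)⁻¹ * ((a + r) ^ 1)⁻¹) := by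
  rw [gap_eq ha hr, pow_one, ← mul_inv, ← div_eq_mul_inv, div_le_div_iff₀ (by positivity)
    (by positivity)]
  have h1 : 0 ≤ a * (r ^ 2 * (a + r)) * ((a + r) * 2 - (a + 2 * r)) := by
    have : 0 ≤ (a + r) * 2 - (a + 2 * r) := by linarith
    positivity
  nlinarith [h1]

theorem pow_split {α r : ℝ} (hr : 0 < r) : r ^ (α - 1) * (r ^ 2)⁻¹ = r ^ (α - 2 - 1) := by
  rw [← Real.rpow_natCast r 2, ← Real.rpow_neg hr.le, ← Real.rpow_add hr]
  congr 1
  push_cast
  ring

theorem gap_integrable {α a : ℝ} (h2 : 2 < α) (h3 : α < 3) (ha : 0 ≤ a) :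
    IntegrableOn (fun r => r ^ (α - 1) * ((r ^ 2)⁻¹ - ((a + r) ^ 2)⁻¹)) (Ioi 0) := by
  rcases eq_or_lt_of_le ha with rfl | ha'
  · have : (fun r : ℝ => r ^ (α - 1) * ((r ^ 2)⁻¹ - ((0 + r) ^ 2)⁻¹)) = fun _ => 0 := by
      funext r; simp
    rw [this]
    exact integrableOn_zero
  have h1 := (integrableOn_scalar (α - 2) a 1 (by linarith) (by push_cast; linarith) ha').const_mul
    (2 * a)
  refine Integrable.mono' h1 ?_ ?_
  · apply Measurable.aestronglyMeasurable
    fun_prop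
  · refine ae_restrict_of_forall_mem measurableSet_Ioi fun r hr => ?_
    have hr0 : (0 : ℝ) < r := hr
    rw [Real.norm_of_nonneg (mul_nonneg (by positivity) (gap_nonneg ha hr0))]
    calc r ^ (α - 1) * ((r ^ 2)⁻¹ - ((a + r) ^ 2)⁻¹) ≤
        r ^ (α - 1) * (2 * a * ((r ^ 2)⁻¹ * ((a + r) ^ 1)⁻¹)) :=
          mul_le_mul_of_nonneg_left (gap_le ha hr0) (by positivity)
      _ = 2 * a * ((r ^ (α - 1) * (r ^ 2)⁻¹) * ((a + r) ^ 1)⁻¹) := by ring
      _ = _ := by rw [pow_split hr0]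

theorem gap_integral {α a : ℝ} (h2 : 2 < α) (ha : 0 ≤ a) :
    ∫ r in Ioi (0 : ℝ), r ^ (α - 1) * ((r ^ 2)⁻¹ - ((a + r) ^ 2)⁻¹) = a ^ (α - 2) * cc α := by
  rcases eq_or_lt_of_le ha with rfl | ha'
  · rw [Real.zero_rpow (by linarith), zero_mul]
    simp
  rw [integral_scale α a (fun r => (r ^ 2)⁻¹ - ((a + r) ^ 2)⁻¹) ha']
  unfold cc
  rw [← integral_const_mul, ← integral_const_mul]
  apply setIntegral_congr_fun measurableSet_Ioi
  intro t ht
  have ht0 : (0 : ℝ) < t := ht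
  show a ^ α * (t ^ (α - 1) * (((a * t) ^ 2)⁻¹ - ((a + a * t) ^ 2)⁻¹)) =
    a ^ (α - 2) * (t ^ (α - 1) * ((t ^ 2)⁻¹ - ((1 + t) ^ 2)⁻¹))
  have e1 : a ^ (α - 2) = a ^ α * (a ^ 2)⁻¹ := by
    rw [Real.rpow_sub ha', div_eq_mul_inv]
    congr 2
    exact_mod_cast Real.rpow_natCast a 2
  rw [e1]
  have h1 : 1 + t ≠ 0 := by positivity
  have h3 : a + a * t = a * (1 + t) := by ring
  rw [h3, mul_pow, mul_pow, mul_inv, mul_inv]
  ring

theorem cc_pos {α : ℝ} (h2 : 2 < α) (h3 : α < 3) : 0 < cc α := by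
  unfold cc
  rw [integral_pos_iff_support_of_nonneg_ae]
  · have : Function.support (fun r : ℝ => r ^ (α - 1) * ((r ^ 2)⁻¹ - ((1 + r) ^ 2)⁻¹)) ∩ Ioi 0 =
        Ioi 0 := by
      apply Set.inter_eq_right.2
      intro r hr
      have hr0 : (0 : ℝ) < r := hr
      rw [Function.mem_support, gap_eq zero_le_one hr0]
      positivity
    rw [Measure.restrict_apply' measurableSet_Ioi, this]
    simp
  · refine ae_restrict_of_forall_mem measurableSet_Ioi fun r hr => ?_
    have hr0 : (0 : ℝ) < r := hr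
    exact mul_nonneg (by positivity) (gap_nonneg zero_le_one hr0)
  · exact gap_integrable h2 h3 zero_le_one

theorem inv_int {x y r : ℝ} (hx : 0 < x) (hy : 0 < y) (hr : 0 < r) :
    ∫ t in (0 : ℝ)..1, ((t * x + (1 - t) * y + r) ^ 2)⁻¹ = ((x + r) * (y + r))⁻¹ := by
  have hpos : ∀ t ∈ Icc (0 : ℝ) 1, 0 < t * x + (1 - t) * y + r := fun t ht =>
    add_pos (comb_pos hx hy ht) hr
  have hu : uIcc (0 : ℝ) 1 = Icc 0 1 := uIcc_of_le zero_le_one
  have hd : ∀ t ∈ uIcc (0 : ℝ) 1, HasDerivAt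
      (fun t : ℝ => t / (t * x + (1 - t) * y + r) * (y + r)⁻¹)
      (((t * x + (1 - t) * y + r) ^ 2)⁻¹) t := by
    intro t ht
    rw [hu] at ht
    have hp := hpos t ht
    have h1 : HasDerivAt (fun t : ℝ => t * x + (1 - t) * y + r) (x - y) t := by
      have h3 := (((hasDerivAt_id t).mul_const x).add
        (((hasDerivAt_const t (1 : ℝ)).sub (hasDerivAt_id t)).mul_const y)).add_const r
      have e : (1 * x + (0 - 1) * y) = x - y := by ring
      rw [e] at h3
      exact h3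
    have h2 := ((hasDerivAt_id t).div h1 hp.ne').mul_const (y + r)⁻¹
    have e : (1 * (t * x + (1 - t) * y + r) - id t * (x - y)) /
        (t * x + (1 - t) * y + r) ^ 2 * (y + r)⁻¹ = ((t * x + (1 - t) * y + r) ^ 2)⁻¹ := by
      have : 1 * (t * x + (1 - t) * y + r) - id t * (x - y) = y + r := by
        simp only [id]; ring
      rw [this]
      have h5 : y + r ≠ 0 := by positivity
      field_simp
    rw [e] at h2
    exact h2
  have hc : ContinuousOn (fun t : ℝ => ((t * x + (1 - t) * y + r) ^ 2)⁻¹) (uIcc 0 1) := by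
    rw [hu]
    apply ContinuousOn.inv₀
    · fun_prop
    · intro t ht
      have := hpos t ht
      positivity
  rw [intervalIntegral.integral_eq_sub_of_hasDerivAt hd hc.intervalIntegrable]
  have h1 : x + r ≠ 0 := by positivity
  have h2 : y + r ≠ 0 := by positivity
  simp only [one_mul, sub_self, zero_mul, add_zero, zero_div, sub_zero]
  rw [mul_inv]
  field_simp

/-- the kernel of `T₂` as a regularised integral -/
theorem hk_int {α x y : ℝ} (h2 : 2 < α) (h3 : α < 3) (hx : 0 < x) (hy : 0 < y) :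
    ∫ r in Ioi (0 : ℝ), r ^ (α - 1) * ((r ^ 2)⁻¹ - ((x + r) * (y + r))⁻¹) = cc α * hk α x y := by
  have hm : 0 < max x y := lt_max_of_lt_left hx
  set F : ℝ → ℝ → ℝ := fun r t => r ^ (α - 1) * ((r ^ 2)⁻¹ -
    ((t * x + (1 - t) * y + r) ^ 2)⁻¹) with hF
  have hpos : ∀ t ∈ Ioc (0 : ℝ) 1, 0 < t * x + (1 - t) * y := fun t ht =>
    comb_pos hx hy ⟨ht.1.le, ht.2⟩
  have hupp : ∀ t ∈ Ioc (0 : ℝ) 1, t * x + (1 - t) * y ≤ max x y := fun t ht => by
    have e1 := mul_le_mul_of_nonneg_left (le_max_left x y) ht.1.le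
    have e2 := mul_le_mul_of_nonneg_left (le_max_right x y) (by linarith [ht.2] : 0 ≤ 1 - t)
    linarith
  have hint : Integrable (Function.uncurry F)
      ((volume.restrict (Ioi (0 : ℝ))).prod (volume.restrict (Ioc (0 : ℝ) 1))) := by
    have h1 := gap_integrable h2 h3 hm.le
    have h4 : Integrable (fun p : ℝ × ℝ =>
        (p.1 ^ (α - 1) * ((p.1 ^ 2)⁻¹ - ((max x y + p.1) ^ 2)⁻¹)))
        ((volume.restrict (Ioi (0 : ℝ))).prod (volume.restrict (Ioc (0 : ℝ) 1))) :=
      Integrable.comp_fst h1 _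
    refine Integrable.mono' h4 ?_ ?_
    · apply Measurable.aestronglyMeasurable
      simp only [hF, Function.uncurry_def]
      fun_prop
    · have a1 : ∀ᵐ p ∂((volume.restrict (Ioi (0 : ℝ))).prod (volume.restrict (Ioc (0 : ℝ) 1))),
          p.1 ∈ Ioi (0 : ℝ) :=
        Measure.quasiMeasurePreserving_fst.ae (ae_restrict_mem measurableSet_Ioi)
      have a2 : ∀ᵐ p ∂((volume.restrict (Ioi (0 : ℝ))).prod (volume.restrict (Ioc (0 : ℝ) 1))),
          p.2 ∈ Ioc (0 : ℝ) 1 :=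
        Measure.quasiMeasurePreserving_snd.ae (ae_restrict_mem measurableSet_Ioc)
      filter_upwards [a1, a2] with p hp1 hp2
      have hr0 : (0 : ℝ) < p.1 := hp1
      have hl := hpos p.2 hp2
      have hl2 := hupp p.2 hp2
      simp only [hF, Function.uncurry_def]
      rw [Real.norm_of_nonneg (mul_nonneg (by positivity) (gap_nonneg hl.le hr0))]
      apply mul_le_mul_of_nonneg_left _ (by positivity)
      have : ((max x y + p.1) ^ 2)⁻¹ ≤ ((p.2 * x + (1 - p.2) * y + p.1) ^ 2)⁻¹ := by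
        apply inv_anti₀ (by positivity)
        gcongr
      linarith
  have hL : ∫ r in Ioi (0 : ℝ), r ^ (α - 1) * ((r ^ 2)⁻¹ - ((x + r) * (y + r))⁻¹) =
      ∫ r in Ioi (0 : ℝ), ∫ t in Ioc (0 : ℝ) 1, F r t := by
    apply setIntegral_congr_fun measurableSet_Ioi
    intro r hr
    have hr0 : (0 : ℝ) < r := hr
    simp only [hF]
    rw [← inv_int hx hy hr0, intervalIntegral.integral_of_le zero_le_one, integral_const_mul]
    congr 1
    have hi : IntegrableOn (fun t : ℝ => ((t * x + (1 - t) * y + r) ^ 2)⁻¹) (Ioc 0 1) := by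
      have hc : ContinuousOn (fun t : ℝ => ((t * x + (1 - t) * y + r) ^ 2)⁻¹) (Icc 0 1) := by
        apply ContinuousOn.inv₀
        · fun_prop
        · intro t ht
          have := add_pos (comb_pos hx hy ht) hr0
          positivity
      exact hc.integrableOn_Icc.mono_set Ioc_subset_Icc_self
    have hi2 : IntegrableOn (fun _ : ℝ => (r ^ 2)⁻¹) (Ioc (0 : ℝ) 1) :=
      integrable_const _
    rw [integral_sub hi2 hi]
    simp
  rw [hL, integral_integral_swap hint]
  have hR : ∀ t ∈ Ioc (0 : ℝ) 1, ∫ r in Ioi (0 : ℝ), F r t =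
      cc α * (t * x + (1 - t) * y) ^ (α - 2) := by
    intro t ht
    have hl := hpos t ht
    simp only [hF]
    rw [gap_integral h2 hl.le, mul_comm]
  rw [setIntegral_congr_fun measurableSet_Ioc hR, integral_const_mul, hk,
    intervalIntegral.integral_of_le zero_le_one]

theorem pair_integrable {α x y : ℝ} (h2 : 2 < α) (h3 : α < 3) (hx : 0 < x) (hy : 0 < y) :
    IntegrableOn (fun r => r ^ (α - 1) * ((r ^ 2)⁻¹ - ((x + r) * (y + r))⁻¹)) (Ioi 0) := by
  have hm : 0 < max x y := lt_max_of_lt_left hx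
  refine Integrable.mono' (gap_integrable h2 h3 hm.le) ?_ ?_
  · apply Measurable.aestronglyMeasurable
    fun_prop
  · refine ae_restrict_of_forall_mem measurableSet_Ioi fun r hr => ?_
    have hr0 : (0 : ℝ) < r := hr
    have h1 : ((x + r) * (y + r))⁻¹ ≤ (r ^ 2)⁻¹ := by
      apply inv_anti₀ (by positivity)
      nlinarith [mul_pos hx hy, mul_pos hx hr0, mul_pos hy hr0]
    have h4 : ((max x y + r) ^ 2)⁻¹ ≤ ((x + r) * (y + r))⁻¹ := by
      apply inv_anti₀ (by positivity)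
      rw [sq]
      gcongr
      · exact le_max_left _ _
      · exact le_max_right _ _
    rw [Real.norm_of_nonneg (mul_nonneg (by positivity) (by linarith))]
    apply mul_le_mul_of_nonneg_left _ (by positivity)
    linarith

theorem sum_abs_le_T2 {α : ℝ} (h2 : 2 < α) (h3 : α < 3) {A D : Matrix ι ι ℂ} (h : IsPair A D)
    (hD : D.IsHermitian) : ∑ i, |hD.eigenvalues i| ^ α ≤ T2 α A D := by
  obtain ⟨U, E, a, hEB⟩ := S24.exists_EB h.pos hD
  have h0 : 0 < α := by linarith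
  have h4 : α < 4 := by linarith
  have hT : T2 α A D = ∑ i, ∑ j, ‖E i j‖ ^ 2 * hk α (a i) (a j) := by
    rw [← T2_dg α h0 h4 a hEB.pos E hEB.hH, hEB.hA, hEB.hE]
    exact T2_conj α U _ _ hEB.u2 hEB.u1
  have hsq : ∑ i, (hD.eigenvalues i) ^ 2 = ∑ i, ∑ j, ‖E i j‖ ^ 2 := by
    rw [← trace_sq_eq hD]
    have e1 : (D * D).trace = (E * E).trace := by
      conv_lhs => rw [hEB.hE]
      calc (U * E * Uᴴ * (U * E * Uᴴ)).trace = (U * (E * (Uᴴ * U) * E * Uᴴ)).trace := by
            congr 1; noncomm_ring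
        _ = ((E * (Uᴴ * U) * E * Uᴴ) * U).trace := by rw [Matrix.trace_mul_comm]
        _ = (E * (Uᴴ * U) * E * (Uᴴ * U)).trace := by congr 1; noncomm_ring
        _ = _ := by rw [hEB.u2]; simp
    rw [e1, Matrix.trace, Complex.re_sum]
    apply Finset.sum_congr rfl
    intro i _
    rw [Matrix.diag_apply, Matrix.mul_apply, Complex.re_sum]
    apply Finset.sum_congr rfl
    intro j _
    rw [T2B.entry_mul hEB.hH, Complex.ofReal_re]
  have htn : ∀ r, 0 < r → tn A D 2 r = ∑ i, ∑ j, ‖E i j‖ ^ 2 * ((a i + r) * (a j + r))⁻¹ := by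
    intro r hr
    rw [hEB.tn2 hr.le]
    apply Finset.sum_congr rfl
    intro i _
    apply Finset.sum_congr rfl
    intro j _
    rw [Complex.normSq_eq_norm_sq, mul_inv, one_div, one_div]
  have hc := cc_pos h2 h3
  have hleft : ∑ i, |hD.eigenvalues i| ^ α * cc α =
      ∫ r in Ioi (0 : ℝ), ∑ i, (hD.eigenvalues i) ^ 2 *
        (r ^ (α - 1) * ((r ^ 2)⁻¹ - ((|hD.eigenvalues i| + r) ^ 2)⁻¹)) := by
    rw [integral_finset_sum]
    · apply Finset.sum_congr rfl
      intro i _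
      rw [integral_const_mul, gap_integral h2 (abs_nonneg _), ← mul_assoc]
      congr 1
      rcases eq_or_lt_of_le (abs_nonneg (hD.eigenvalues i)) with h5 | h5
      · rw [← h5, Real.zero_rpow (by linarith), Real.zero_rpow (by linarith), mul_zero]
      · rw [← sq_abs, Real.rpow_sub h5]
        have e : |hD.eigenvalues i| ^ (2 : ℝ) = |hD.eigenvalues i| ^ 2 := by
          exact_mod_cast Real.rpow_natCast _ 2
        rw [e]
        field_simp
    · intro i _
      exact (gap_integrable h2 h3 (abs_nonneg _)).const_mul _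
  have hright : cc α * T2 α A D = ∫ r in Ioi (0 : ℝ), ∑ i, ∑ j, ‖E i j‖ ^ 2 *
      (r ^ (α - 1) * ((r ^ 2)⁻¹ - ((a i + r) * (a j + r))⁻¹)) := by
    rw [hT, Finset.mul_sum, integral_finset_sum]
    · apply Finset.sum_congr rfl
      intro i _
      rw [Finset.mul_sum, integral_finset_sum]
      · apply Finset.sum_congr rfl
        intro j _
        rw [integral_const_mul, hk_int h2 h3 (hEB.pos i) (hEB.pos j)]
        ring
      · intro j _
        exact (pair_integrable h2 h3 (hEB.pos i) (hEB.pos j)).const_mul _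
    · intro i _
      exact integrable_finset_sum _ fun j _ =>
        (pair_integrable h2 h3 (hEB.pos i) (hEB.pos j)).const_mul _
  have hle : (∑ i, |hD.eigenvalues i| ^ α) * cc α ≤ cc α * T2 α A D := by
    rw [Finset.sum_mul, hleft, hright]
    apply setIntegral_mono_on
    · exact integrable_finset_sum _ fun i _ =>
        (gap_integrable h2 h3 (abs_nonneg _)).const_mul _
    · exact integrable_finset_sum _ fun i _ => integrable_finset_sum _ fun j _ =>
        (pair_integrable h2 h3 (hEB.pos i) (hEB.pos j)).const_mul _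
    · exact measurableSet_Ioi
    · intro r hr
      have hr0 : (0 : ℝ) < r := hr
      have k := tn_le h hD hr0
      rw [htn r hr0] at k
      have e1 : ∑ i, (hD.eigenvalues i) ^ 2 *
          (r ^ (α - 1) * ((r ^ 2)⁻¹ - ((|hD.eigenvalues i| + r) ^ 2)⁻¹)) =
          r ^ (α - 1) * ((∑ i, (hD.eigenvalues i) ^ 2) * (r ^ 2)⁻¹ -
            ∑ i, (hD.eigenvalues i) ^ 2 * ((|hD.eigenvalues i| + r) ^ 2)⁻¹) := by
        rw [Finset.sum_mul, ← Finset.sum_sub_distrib, Finset.mul_sum]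
        apply Finset.sum_congr rfl
        intro i _
        ring
      have e2 : ∑ i, ∑ j, ‖E i j‖ ^ 2 *
          (r ^ (α - 1) * ((r ^ 2)⁻¹ - ((a i + r) * (a j + r))⁻¹)) =
          r ^ (α - 1) * ((∑ i, ∑ j, ‖E i j‖ ^ 2) * (r ^ 2)⁻¹ -
            ∑ i, ∑ j, ‖E i j‖ ^ 2 * ((a i + r) * (a j + r))⁻¹) := by
        rw [Finset.sum_mul, ← Finset.sum_sub_distrib, Finset.mul_sum]
        apply Finset.sum_congr rfl
        intro i _
        rw [Finset.sum_mul, ← Finset.sum_sub_distrib, Finset.mul_sum]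
        apply Finset.sum_congr rfl
        intro j _
        ring
      rw [e1, e2, hsq]
      apply mul_le_mul_of_nonneg_left _ (by positivity)
      linarith
  rw [mul_comm] at hle
  exact le_of_mul_le_mul_left hle hc

theorem abs_rpow_eq_pp {α : ℝ} (h0 : 0 < α) (x : ℝ) : |x| ^ α = pp α x + pp α (-x) := by
  unfold pp
  rcases le_total 0 x with h | h
  · rw [max_eq_left h, max_eq_right (by linarith), Real.zero_rpow h0.ne', abs_of_nonneg h, add_zero]
  · rw [max_eq_right h, max_eq_left (by linarith), Real.zero_rpow h0.ne', abs_of_nonpos h, zero_add]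

/-- `Tr D₊^α + Tr (-D)₊^α ≤ T₂` -/
theorem trF_pos_neg_le_T2 {α : ℝ} (h2 : 2 < α) (h3 : α < 3) {A D : Matrix ι ι ℂ}
    (h : IsPair A D) (hD : D.IsHermitian) :
    trF (pp α) D + trF (pp α) (-D) ≤ T2 α A D := by
  refine le_trans (le_of_eq ?_) (sum_abs_le_T2 h2 h3 h hD)
  rw [trF_neg (pp α) hD]
  have : trF (pp α) D = ∑ i, pp α (hD.eigenvalues i) := by
    unfold trF; rw [dif_pos hD]
  rw [this, ← Finset.sum_add_distrib]
  exact Finset.sum_congr rfl fun i _ => (abs_rpow_eq_pp (by linarith) _).symm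

theorem isHermitian_of_isPair {A D : Matrix ι ι ℂ} (h : IsPair A D) : D.IsHermitian := by
  have h1 := h.add.isHermitian.sub h.pos.isHermitian
  rwa [add_sub_cancel_left] at h1

/-- `τ(0) ≤ T₂` -/
theorem tau_zero_le {α : ℝ} (h2 : 2 < α) (h3 : α < 3) {A D : Matrix ι ι ℂ} (h : IsPair A D) :
    trF (pp α) (D - ((0 : ℝ) : ℂ) • (A - D)) + trF (pp α) (-D - ((0 : ℝ) : ℂ) • (A + D)) ≤
      T2 α A D := by
  have := trF_pos_neg_le_T2 h2 h3 h (isHermitian_of_isPair h)
  simpa using this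

end Pool.Agent.RC.TZ
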