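import Pool.Agent.Lib_helper47.MOD.Defs
import Pool.Agent.Lib_helper41.MOD.TZ2

/-!
The value at `0` of the pencil function `tau` is at most `T2`.
-/

namespace Pool.Agent.RC.TZ

open Pool.Agent.RC Matrix

variable {ι : Type} [Fintype ι] [DecidableEq ι]

/-- the value at `0` of `tau` is at most the second moment `T2` -/
theorem tau_zero {α : ℝ} (h2 : 2 < α) (h3 : α < 3) {A D : Matrix ι ι ℂ}
    (h : IsPair A D) : tau α A D 0 ≤ T2 α A D := tau_zero_le h2 h3 h

end Pool.Agent.RC.TZ
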